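import Pool.Agent.K4H29.NS.SRH

/-!
Piece [M1] for `MP_233bd3_co` (helper40): the number of new generators of the Stanley-Reisner ideal in degree `d + 1`
is the number of missing `d`-faces.
-/

set_option autoImplicit false

namespace Pool.Agent.K4H40.NS

open MvPolynomial Module

namespace M1H75

/-- exponents of the monomials of degree `m` in the ideal -/
def A {n : ℕ} (Δ : Cplx n) (m : ℕ) : Set (Fin n →₀ ℕ) := {e | e.degree = m ∧ e.support ∉ Δ.faces}

/-- exponents of the monomials of degree `d + 1` which are multiples of monomials of degree `d` in the ideal -/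
def B {n : ℕ} (Δ : Cplx n) (d : ℕ) : Set (Fin n →₀ ℕ) :=
  {e | ∃ l : Fin n, ∃ g ∈ A Δ d, e = Finsupp.single l 1 + g}

theorem expo_apply {n : ℕ} (F : Finset (Fin n)) (v : Fin n) : expo29 F v = if v ∈ F then 1 else 0 := by
  classical
  unfold expo29
  rw [Finsupp.finsetSum_apply]
  simp only [Finsupp.single_apply]
  rw [Finset.sum_ite_eq' F v]

theorem expo_support {n : ℕ} (F : Finset (Fin n)) : (expo29 F).support = F := by
  ext v
  rw [Finsupp.mem_support_iff, expo_apply]
  by_cases h : v ∈ F <;> simp [h]

theorem expo_le_iff {n : ℕ} (F : Finset (Fin n)) (e : Fin n →₀ ℕ) : expo29 F ≤ e ↔ F ⊆ e.support := by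
  constructor
  · intro h v hv
    have := h v
    rw [expo_apply, if_pos hv] at this
    rw [Finsupp.mem_support_iff]
    omega
  · intro h v
    rw [expo_apply]
    by_cases hv : v ∈ F
    · rw [if_pos hv]
      have := Finsupp.mem_support_iff.1 (h hv)
      omega
    · rw [if_neg hv]; exact Nat.zero_le _

theorem mem_SR {n : ℕ} (K : Type) [Field K] (Δ : Cplx n) (f : R n K) :
    f ∈ SR K Δ ↔ ∀ m ∈ f.support, m.support ∉ Δ.faces := by
  rw [mem_SR29]
  refine forall₂_congr fun m _ => ?_
  constructor
  · rintro ⟨F, hF, hle⟩ h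
    exact hF (Δ.down _ h F ((expo_le_iff F m).1 hle))
  · intro h
    exact ⟨m.support, h, (expo_le_iff _ _).2 subset_rfl⟩

theorem Id_eq {n : ℕ} (K : Type) [Field K] (Δ : Cplx n) (m : ℕ) :
    Id (SR K Δ) m = restrictSupport K (A Δ m) := by
  ext f
  rw [mem_restrictSupport_iff]
  unfold Id
  rw [Submodule.mem_inf]
  constructor
  · rintro ⟨h1, h2⟩ e he
    have h1' : f ∈ SR K Δ := h1
    rw [mem_SR] at h1'
    have hd' : f.IsHomogeneous m := (mem_homogeneousSubmodule m f).1 h2
    refine ⟨?_, h1' e he⟩
    by_contra hne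
    exact (MvPolynomial.mem_support_iff.1 he) (hd'.coeff_eq_zero hne)
  · intro h
    refine ⟨?_, ?_⟩
    · show f ∈ SR K Δ
      rw [mem_SR]
      intro e he
      exact (h he).2
    · rw [mem_homogeneousSubmodule]
      intro e he
      have := (h (MvPolynomial.mem_support_iff.2 he)).1
      rw [← this, Finsupp.degree_eq_weight_one]
      rfl

theorem RI_eq {n : ℕ} (K : Type) [Field K] (Δ : Cplx n) (d : ℕ) :
    RI (SR K Δ) d = restrictSupport K (B Δ d) := by
  classical
  apply le_antisymm
  · unfold RI
    rw [Submodule.span_le]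
    rintro _ ⟨x, hx, f, hf, rfl⟩
    rw [Id_eq, mem_restrictSupport_iff] at hf
    show x * f ∈ restrictSupport K (B Δ d)
    rw [mem_restrictSupport_iff]
    intro e he
    have := MvPolynomial.support_mul x f he
    rw [Finset.mem_add] at this
    obtain ⟨a, ha, b, hb, rfl⟩ := this
    have hx' : x.IsHomogeneous 1 := (mem_homogeneousSubmodule 1 x).1 hx
    have hdeg : a.degree = 1 := by
      by_contra hne
      exact (MvPolynomial.mem_support_iff.1 ha) (hx'.coeff_eq_zero hne)
    obtain ⟨l, hl⟩ : ∃ l, a = Finsupp.single l 1 := by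
      have hne : a.support.Nonempty := by
        rw [Finset.nonempty_iff_ne_empty]
        intro h0
        rw [Finsupp.support_eq_empty] at h0
        rw [h0] at hdeg
        simp at hdeg
      obtain ⟨l, hl⟩ := hne
      refine ⟨l, ?_⟩
      have hle : Finsupp.single l 1 ≤ a := by
        rw [Finsupp.single_le_iff]
        have := Finsupp.mem_support_iff.1 hl
        omega
      have h2 : a.degree = (Finsupp.single l 1 + (a - Finsupp.single l 1)).degree := by
        rw [add_tsub_cancel_of_le hle]
      rw [map_add, Finsupp.degree_single, hdeg] at h2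
      have h3 : (a - Finsupp.single l 1).degree = 0 := by omega
      rw [Finsupp.degree_eq_zero_iff] at h3
      rw [← add_tsub_cancel_of_le hle, h3, add_zero]
    exact ⟨l, b, hf hb, by rw [hl]⟩
  · rw [restrictSupport_eq_span, Submodule.span_le]
    rintro _ ⟨e, ⟨l, g, hg, rfl⟩, rfl⟩
    apply Submodule.subset_span
    refine ⟨X l, ?_, monomial g 1, ?_, ?_⟩
    · rw [mem_homogeneousSubmodule]; exact isHomogeneous_X K l
    · rw [Id_eq, mem_restrictSupport_iff]
      intro e he
      have := support_monomial_subset he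
      rw [Finset.mem_singleton] at this
      rw [this]; exact hg
    · show monomial (Finsupp.single l 1 + g) (1 : K) = X l * monomial g 1
      rw [X, monomial_mul, one_mul]

theorem A_finite {n : ℕ} (Δ : Cplx n) (m : ℕ) : (A Δ m).Finite :=
  (Finsupp.finite_of_degree_le m).subset (fun e he => (he.1).le)

theorem B_sub {n : ℕ} (Δ : Cplx n) (d : ℕ) : B Δ d ⊆ A Δ (d + 1) := by
  rintro _ ⟨l, g, hg, rfl⟩
  refine ⟨?_, ?_⟩
  · rw [map_add, hg.1, Finsupp.degree_single, add_comm]
  · intro h
    apply hg.2
    refine Δ.down _ h _ ?_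
    intro v hv
    rw [Finsupp.mem_support_iff] at hv ⊢
    rw [Finsupp.add_apply]
    omega

theorem diff_eq {n : ℕ} (Δ : Cplx n) (d : ℕ) :
    A Δ (d + 1) \ B Δ d = expo29 '' {F : Finset (Fin n) | F.card = d + 1 ∧ Missing Δ F} := by
  classical
  ext e
  constructor
  · rintro ⟨⟨hdeg, hsupp⟩, hB⟩
    have key : ∀ l ∈ e.support, (e - Finsupp.single l 1).support ∈ Δ.faces := by
      intro l hl
      by_contra h
      apply hB
      have hle : Finsupp.single l 1 ≤ e := by
        rw [Finsupp.single_le_iff]
        have := Finsupp.mem_support_iff.1 hl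
        omega
      refine ⟨l, e - Finsupp.single l 1, ⟨?_, h⟩, (add_tsub_cancel_of_le hle).symm⟩
      have h2 : e.degree = (Finsupp.single l 1 + (e - Finsupp.single l 1)).degree := by
        rw [add_tsub_cancel_of_le hle]
      rw [map_add, Finsupp.degree_single, hdeg] at h2
      omega
    have hone : ∀ l ∈ e.support, e l = 1 := by
      intro l hl
      by_contra h
      have hl' := Finsupp.mem_support_iff.1 hl
      apply hsupp
      refine Δ.down _ (key l hl) _ ?_
      intro v hv
      rw [Finsupp.mem_support_iff] at hv ⊢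
      rw [Finsupp.tsub_apply, Finsupp.single_apply]
      by_cases hvl : l = v
      · subst hvl
        rw [if_pos rfl]
        omega
      · rw [if_neg hvl]
        omega
    have hexp : expo29 e.support = e := by
      ext v
      rw [expo_apply]
      by_cases hv : v ∈ e.support
      · rw [if_pos hv, hone v hv]
      · rw [if_neg hv]
        exact (Finsupp.notMem_support_iff.1 hv).symm
    refine ⟨e.support, ⟨?_, hsupp, ?_⟩, hexp⟩
    · rw [← degree_expo29, hexp, hdeg]
    · intro G hG
      obtain ⟨l, hl, hlG⟩ := Finset.exists_of_ssubset hG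
      refine Δ.down _ (key l hl) _ ?_
      intro v hv
      rw [Finsupp.mem_support_iff, Finsupp.tsub_apply, Finsupp.single_apply]
      have hvl : l ≠ v := by rintro rfl; exact hlG hv
      rw [if_neg hvl]
      have := Finsupp.mem_support_iff.1 (hG.1 hv)
      omega
  · rintro ⟨F, ⟨hcard, hF, hprop⟩, rfl⟩
    refine ⟨⟨by rw [degree_expo29, hcard], by rw [expo_support]; exact hF⟩, ?_⟩
    rintro ⟨l, g, hg, he⟩
    apply hg.2
    apply hprop
    have h1 : ∀ v, expo29 F v = (Finsupp.single l 1 : Fin n →₀ ℕ) v + g v := by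
      intro v; rw [he]; rfl
    have hgl : g l = 0 ∧ l ∈ F := by
      have := h1 l
      rw [expo_apply, Finsupp.single_eq_same] at this
      by_cases hl : l ∈ F
      · rw [if_pos hl] at this
        exact ⟨by omega, hl⟩
      · rw [if_neg hl] at this
        omega
    rw [Finset.ssubset_iff_of_subset]
    · exact ⟨l, hgl.2, by rw [Finsupp.mem_support_iff]; simp [hgl.1]⟩
    · intro v hv
      by_contra hvF
      have := h1 v
      rw [expo_apply, if_neg hvF] at this
      rw [Finsupp.mem_support_iff] at hv
      omega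

theorem expo_inj {n : ℕ} : Function.Injective (expo29 : Finset (Fin n) → (Fin n →₀ ℕ)) := by
  intro F G h
  rw [← expo_support F, ← expo_support G, h]

theorem finrank_restrict {n : ℕ} (K : Type) [Field K] (S : Set (Fin n →₀ ℕ)) :
    finrank K (restrictSupport K S) = S.ncard := by
  rw [Module.finrank_eq_nat_card_basis (basisRestrictSupport K S)]
  rfl

end M1H75

open M1H75 in
theorem m1 : StM1 := by
  classical
  intro n K _ Δ d
  rw [Id_eq, RI_eq, finrank_restrict, finrank_restrict]
  have h1 := Set.ncard_sdiff_add_ncard_of_subset (B_sub Δ d) (A_finite Δ (d + 1))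
  rw [← h1, add_comm, diff_eq, Set.ncard_image_of_injective _ expo_inj]
  congr 1
  unfold mcount
  rw [← Set.ncard_coe_finset]
  congr 1
  ext F
  simp

end Pool.Agent.K4H40.NS
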