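import Pool.Agent.K4H72.Til.Spec

/-! Piece T10 (edge) for helper72 -/

open Set

namespace Pool.Agent.K4H72.Til

namespace T10

theorem key (a b z : ℂ) : ‖z - a‖ ^ 2 - ‖z - b‖ ^ 2 =
    2 * (inner ℝ (b - a) (z)) - (‖b‖ ^ 2 - ‖a‖ ^ 2) := by
  rw [norm_sub_sq_real, norm_sub_sq_real, inner_sub_left, real_inner_comm z a, real_inner_comm z b]
  ring

theorem exposed (g : ℤ × ℤ → ℂ) (v w : ℤ × ℤ) :
    IsExposed ℝ (cell g v) (cell g v ∩ cell g w) := by
  rintro ⟨m, hm1, hm2⟩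
  have k1 : ∀ y ∈ cell g v, 2 * (inner ℝ (g w - g v) (y)) ≤ ‖g w‖ ^ 2 - ‖g v‖ ^ 2 := by
    intro y hy
    have h1 := hy w
    have h2 := key (g v) (g w) y
    have h3 : ‖y - g v‖ ^ 2 ≤ ‖y - g w‖ ^ 2 := by gcongr
    linarith
  have k2 : ∀ y ∈ cell g w, ‖g w‖ ^ 2 - ‖g v‖ ^ 2 ≤ 2 * (inner ℝ (g w - g v) (y)) := by
    intro y hy
    have h1 := hy v
    have h2 := key (g v) (g w) y
    have h3 : ‖y - g w‖ ^ 2 ≤ ‖y - g v‖ ^ 2 := by gcongr
    linarith
  refine ⟨innerSL ℝ (g w - g v), ?_⟩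
  ext z
  simp only [mem_inter_iff, mem_ofPred_eq, innerSL_apply_apply]
  constructor
  · rintro ⟨h1, h2⟩
    refine ⟨h1, fun y hy => ?_⟩
    have := k1 y hy
    have := k2 z h2
    linarith
  · rintro ⟨h1, h2⟩
    refine ⟨h1, fun w' => ?_⟩
    have h3 := h2 m hm1
    have h4 := k2 m hm2
    have h5 := key (g v) (g w) z
    have h6 : ‖z - g w‖ ^ 2 ≤ ‖z - g v‖ ^ 2 := by linarith
    have h7 : ‖z - g w‖ ≤ ‖z - g v‖ := le_of_sq_le_sq h6 (norm_nonneg _)
    exact h7.trans (h1 w')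

theorem norm_E (v : ℤ × ℤ) : ‖E v‖ ^ 2 = (v.1 : ℝ) ^ 2 + v.1 * v.2 + (v.2 : ℝ) ^ 2 := by
  have h3 : Real.sqrt 3 ^ 2 = 3 := Real.sq_sqrt (by norm_num)
  rw [Complex.sq_norm, Complex.normSq_apply]
  simp only [E, ζ, Complex.add_re, Complex.add_im, Complex.mul_re, Complex.mul_im,
    Complex.intCast_re, Complex.intCast_im, zero_mul, sub_zero, add_zero, zero_add]
  ring_nf
  rw [h3]
  ring

theorem E_add' (v w : ℤ × ℤ) : E (v + w) = E v + E w := by
  simp only [E, Prod.fst_add, Prod.snd_add]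
  push_cast
  ring

theorem norm_six {e : ℤ × ℤ} (he : e ∈ six) : ‖E e‖ = 1 := by
  have h1 : ‖E e‖ ^ 2 = 1 := by
    rw [norm_E]
    simp only [six, Finset.mem_insert, Finset.mem_singleton] at he
    rcases he with rfl | rfl | rfl | rfl | rfl | rfl <;> norm_num
  nlinarith [norm_nonneg (E e)]

theorem form_ge {a e : ℤ × ℤ} (he : e ∈ six) (h0 : a ≠ 0) (h1 : a + e ≠ 0) :
    3 ≤ (2 * a.1 + e.1) ^ 2 + (2 * a.1 + e.1) * (2 * a.2 + e.2) + (2 * a.2 + e.2) ^ 2 := by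
  by_contra hcon
  push Not at hcon
  obtain ⟨b1, hb1⟩ : ∃ b, b = 2 * a.1 + e.1 := ⟨_, rfl⟩
  obtain ⟨b2, hb2⟩ : ∃ b, b = 2 * a.2 + e.2 := ⟨_, rfl⟩
  rw [← hb1, ← hb2] at hcon
  have i1 : b1 ≤ 1 := by nlinarith [sq_nonneg (2 * b2 + b1), sq_nonneg (b1 - 1)]
  have i2 : -1 ≤ b1 := by nlinarith [sq_nonneg (2 * b2 + b1), sq_nonneg (b1 + 1)]
  have i3 : b2 ≤ 1 := by nlinarith [sq_nonneg (2 * b1 + b2), sq_nonneg (b2 - 1)]
  have i4 : -1 ≤ b2 := by nlinarith [sq_nonneg (2 * b1 + b2), sq_nonneg (b2 + 1)]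
  obtain ⟨a1, a2⟩ := a
  have h0' : ¬ (a1 = 0 ∧ a2 = 0) := fun h => h0 (by rw [h.1, h.2]; rfl)
  have h1' : ¬ (a1 + e.1 = 0 ∧ a2 + e.2 = 0) := fun h => h1 (Prod.ext h.1 h.2)
  simp only [six, Finset.mem_insert, Finset.mem_singleton] at he
  have j1 : b1 = -1 ∨ b1 = 0 ∨ b1 = 1 := by omega
  have j2 : b2 = -1 ∨ b2 = 0 ∨ b2 = 1 := by omega
  rcases he with rfl | rfl | rfl | rfl | rfl | rfl <;> simp only at hb1 hb2 h1' <;>
    rcases j1 with j1 | j1 | j1 <;> rcases j2 with j2 | j2 | j2 <;> subst j1 <;> subst j2 <;>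
    first
      | omega
      | (norm_num at hcon)

theorem point_mem (h : ℝ) (g : ℤ × ℤ → ℂ) (hg : Def1 h g) (v e : ℤ × ℤ) (he : e ∈ six) (t : ℝ)
    (ht0 : 0 ≤ t) (ht : t ≤ 1 / 10) :
    (g v + g (v + e)) / 2 + (t : ℂ) * Complex.I * (g (v + e) - g v) ∈ cell g v ∩ cell g (v + e) := by
  obtain ⟨hh, hg⟩ := hg
  obtain ⟨d, hd⟩ : ∃ d, d = g (v + e) - g v := ⟨_, rfl⟩
  obtain ⟨z, hz⟩ : ∃ z, z = (g v + g (v + e)) / 2 + (t : ℂ) * Complex.I * (g (v + e) - g v) :=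
    ⟨_, rfl⟩
  rw [← hz]
  have hd1 : ‖d‖ ≤ 21 / 20 * h := by
    have h1 := hg (v + e) v
    rw [add_sub_cancel_left, norm_six he, ← hd] at h1
    calc ‖d‖ = ‖(d - (h : ℂ) * E e) + (h : ℂ) * E e‖ := by rw [sub_add_cancel]
      _ ≤ ‖d - (h : ℂ) * E e‖ + ‖(h : ℂ) * E e‖ := norm_add_le _ _
      _ ≤ 1 / 20 * h * 1 + h := by
        refine add_le_add h1 ?_
        rw [norm_mul, norm_six he, mul_one, Complex.norm_real, Real.norm_of_nonneg hh.le]
      _ = _ := by ring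
  have e1 : z - g v = (1 / 2 + (t : ℂ) * Complex.I) * d := by
    rw [hz, hd]; ring
  have e2 : z - g (v + e) = (-(1 / 2) + (t : ℂ) * Complex.I) * d := by
    rw [hz, hd]; ring
  have n1 : ‖(1 / 2 + (t : ℂ) * Complex.I)‖ = ‖(-(1 / 2) + (t : ℂ) * Complex.I)‖ := by
    rw [← sq_eq_sq₀ (norm_nonneg _) (norm_nonneg _), Complex.sq_norm, Complex.sq_norm,
      Complex.normSq_apply, Complex.normSq_apply]
    simp
  have heq : ‖z - g v‖ = ‖z - g (v + e)‖ := by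
    rw [e1, e2, norm_mul, norm_mul, n1]
  have hup : ‖z - g v‖ ≤ 63 / 100 * h := by
    have n2 : ‖(1 / 2 + (t : ℂ) * Complex.I)‖ ≤ 6 / 10 := by
      calc ‖(1 / 2 + (t : ℂ) * Complex.I)‖ ≤ ‖(1 / 2 : ℂ)‖ + ‖(t : ℂ) * Complex.I‖ := norm_add_le _ _
        _ ≤ 1 / 2 + 1 / 10 := by
          refine add_le_add (by norm_num) ?_
          rw [norm_mul, Complex.norm_I, mul_one, Complex.norm_real, Real.norm_of_nonneg ht0]
          exact ht
        _ = _ := by norm_num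
    rw [e1, norm_mul]
    calc ‖(1 / 2 + (t : ℂ) * Complex.I)‖ * ‖d‖ ≤ 6 / 10 * (21 / 20 * h) :=
          mul_le_mul n2 hd1 (norm_nonneg _) (by norm_num)
      _ = _ := by ring
  have main : ∀ w', ‖z - g v‖ ≤ ‖z - g w'‖ := by
    intro w'
    by_cases hw1 : w' = v
    · rw [hw1]
    by_cases hw2 : w' = v + e
    · rw [hw2]
      exact heq.le
    obtain ⟨a, ha⟩ : ∃ a, a = v - w' := ⟨_, rfl⟩
    have ha0 : a ≠ 0 := fun h0 => hw1 (sub_eq_zero.1 (ha.symm.trans h0)).symm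
    have hae : v + e - w' = a + e := by rw [ha]; abel
    have ha1 : a + e ≠ 0 := fun h0 => hw2 (sub_eq_zero.1 (hae.trans h0)).symm
    have f1 := hg v w'
    have f2 := hg (v + e) w'
    rw [← ha] at f1
    rw [hae] at f2
    obtain ⟨r, hr⟩ : ∃ r, r = ‖E (a + (a + e))‖ := ⟨_, rfl⟩
    have hr0 : 0 ≤ r := by rw [hr]; exact norm_nonneg _
    have hr3 : 3 ≤ r ^ 2 := by
      rw [hr, norm_E]
      have := form_ge he ha0 ha1
      have h3 : (3 : ℝ) ≤ (2 * a.1 + e.1 : ℝ) ^ 2 + (2 * a.1 + e.1) * (2 * a.2 + e.2) +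
          (2 * a.2 + e.2) ^ 2 := by exact_mod_cast this
      refine h3.trans (le_of_eq ?_)
      simp only [Prod.fst_add, Prod.snd_add]
      push_cast
      ring
    have hr17 : 17 / 10 ≤ r := by nlinarith
    have g1 : ‖E a‖ ≤ (r + 1) / 2 := by
      have h4 : (2 : ℂ) * E a = E (a + (a + e)) - E e := by
        rw [E_add' a (a + e), E_add' a e]; ring
      have h5 : 2 * ‖E a‖ ≤ r + 1 := by
        calc 2 * ‖E a‖ = ‖(2 : ℂ) * E a‖ := by rw [norm_mul]; norm_num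
          _ = ‖E (a + (a + e)) - E e‖ := by rw [h4]
          _ ≤ ‖E (a + (a + e))‖ + ‖E e‖ := norm_sub_le _ _
          _ = r + 1 := by rw [← hr, norm_six he]
      linarith
    have g2 : ‖E (a + e)‖ ≤ (r + 1) / 2 := by
      have h4 : (2 : ℂ) * E (a + e) = E (a + (a + e)) + E e := by
        rw [E_add' a (a + e), E_add' a e]; ring
      have h5 : 2 * ‖E (a + e)‖ ≤ r + 1 := by
        calc 2 * ‖E (a + e)‖ = ‖(2 : ℂ) * E (a + e)‖ := by rw [norm_mul]; norm_num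
          _ = ‖E (a + (a + e)) + E e‖ := by rw [h4]
          _ ≤ ‖E (a + (a + e))‖ + ‖E e‖ := norm_add_le _ _
          _ = r + 1 := by rw [← hr, norm_six he]
      linarith
    -- h * E (2 a + e) = 2 (z - g w') - 2 t I d - errors
    have h6 : (h : ℂ) * E (a + (a + e)) = (2 : ℂ) * (z - g w') - 2 * ((t : ℂ) * Complex.I * d) -
        (g v - g w' - (h : ℂ) * E a) - (g (v + e) - g w' - (h : ℂ) * E (a + e)) := by
      rw [E_add' a (a + e), hz, hd]
      ring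
    have h7 : h * r ≤ 2 * ‖z - g w'‖ + 2 * (1 / 10 * (21 / 20 * h)) +
        1 / 20 * h * ((r + 1) / 2) + 1 / 20 * h * ((r + 1) / 2) := by
      have h8 : ‖(h : ℂ) * E (a + (a + e))‖ = h * r := by
        rw [norm_mul, ← hr, Complex.norm_real, Real.norm_of_nonneg hh.le]
      rw [← h8, h6]
      have b1 : ‖(2 : ℂ) * (z - g w')‖ = 2 * ‖z - g w'‖ := by rw [norm_mul]; norm_num
      have b2 : ‖2 * ((t : ℂ) * Complex.I * d)‖ ≤ 2 * (1 / 10 * (21 / 20 * h)) := by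
        rw [norm_mul, norm_mul, norm_mul, Complex.norm_I, mul_one, Complex.norm_real,
          Real.norm_of_nonneg ht0]
        have : t * ‖d‖ ≤ 1 / 10 * (21 / 20 * h) := mul_le_mul ht hd1 (norm_nonneg _) (by norm_num)
        have h2 : ‖(2 : ℂ)‖ = 2 := by norm_num
        rw [h2]
        linarith
      have b3 : ‖g v - g w' - (h : ℂ) * E a‖ ≤ 1 / 20 * h * ((r + 1) / 2) :=
        f1.trans (mul_le_mul_of_nonneg_left g1 (by positivity))
      have b4 : ‖g (v + e) - g w' - (h : ℂ) * E (a + e)‖ ≤ 1 / 20 * h * ((r + 1) / 2) :=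
        f2.trans (mul_le_mul_of_nonneg_left g2 (by positivity))
      have c1 := norm_sub_le ((2 : ℂ) * (z - g w') - 2 * ((t : ℂ) * Complex.I * d) -
        (g v - g w' - (h : ℂ) * E a)) (g (v + e) - g w' - (h : ℂ) * E (a + e))
      have c2 := norm_sub_le ((2 : ℂ) * (z - g w') - 2 * ((t : ℂ) * Complex.I * d))
        (g v - g w' - (h : ℂ) * E a)
      have c3 := norm_sub_le ((2 : ℂ) * (z - g w')) (2 * ((t : ℂ) * Complex.I * d))
      linarith
    have h9 : 17 / 10 * h ≤ h * r := by nlinarith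
    nlinarith
  refine ⟨main, fun w' => ?_⟩
  rw [← heq]
  exact main w'

end T10

theorem edge (h : ℝ) (g : ℤ × ℤ → ℂ) (hg : Def1 h g) (v e : ℤ × ℤ) (he : e ∈ six) :
    ShareEdge (cell g v) (cell g (v + e)) := by
  have hd : g (v + e) - g v ≠ 0 := by
    intro h0
    have h1 := hg.2 (v + e) v
    rw [add_sub_cancel_left, T10.norm_six he, h0, zero_sub, norm_neg, norm_mul, T10.norm_six he,
      mul_one, Complex.norm_real, Real.norm_of_nonneg hg.1.le] at h1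
    have := hg.1
    linarith
  have self : ∀ u, g u ∈ cell g u := by
    intro u w
    rw [sub_self, norm_zero]
    exact norm_nonneg _
  refine ⟨cell g v ∩ cell g (v + e), T10.exposed g v (v + e), ?_, ?_, ?_, ?_⟩
  · rw [inter_comm]
    exact T10.exposed g (v + e) v
  · refine ⟨_, T10.point_mem h g hg v e he 0 le_rfl (by norm_num), _,
      T10.point_mem h g hg v e he (1 / 10) (by norm_num) le_rfl, ?_⟩
    intro h1
    have h2 : (((1 / 10 : ℝ) : ℂ) * Complex.I) * (g (v + e) - g v) = 0 := by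
      have h3 := sub_eq_zero.2 h1.symm
      rw [← h3]
      push_cast
      ring
    rcases mul_eq_zero.1 h2 with h3 | h3
    · rcases mul_eq_zero.1 h3 with h4 | h4
      · norm_num at h4
      · exact Complex.I_ne_zero h4
    · exact hd h3
  · intro h1
    have h2 := self v
    rw [← h1] at h2
    have h3 := h2.2 v
    rw [sub_self, norm_zero] at h3
    have h4 := norm_le_zero_iff.1 h3
    exact hd (sub_eq_zero.2 (sub_eq_zero.1 h4).symm)
  · intro h1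
    have h2 := self (v + e)
    rw [← h1] at h2
    have h3 := h2.1 (v + e)
    rw [sub_self, norm_zero] at h3
    have h4 := norm_le_zero_iff.1 h3
    exact hd h4

end Pool.Agent.K4H72.Til
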