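import Pool.Agent.K4H58.XK.A
import Pool.Agent.K4H58.XK.V

open Finset

namespace Pool.Agent.K4H58.XK

/-- PIECE B: the weight of a pair is `N!` (A.perm_count, V.cut_sum with P = A ∩ Y0, Q = B ∩ Y0, V.vand) -/
theorem pair_weight {N k : ℕ} (Y0 A B : Finset (Fin N)) (hY : Y0.card = k) (hA : A.card = k)
    (hB : B.card = k) (hAB : Disjoint A B) (hA0 : (A ∩ Y0).Nonempty) (hB0 : (B ∩ Y0).Nonempty) :
    W k Y0 (fun _ => 1) (fun J σ => Arr Y0 J σ A B) = N.factorial := by
  have hA1 := hA0.card_pos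
  have hB1 := hB0.card_pos
  have e1 : (A \ Y0).card + (A ∩ Y0).card = k := by
    rw [card_sdiff_add_card_inter, hA]
  have e2 : (B \ Y0).card + (B ∩ Y0).card = k := by
    rw [card_sdiff_add_card_inter, hB]
  have e3 : (A ∩ Y0).card + (B ∩ Y0).card ≤ k := by
    rw [← card_union_of_disjoint (hAB.mono inter_subset_left inter_subset_left), ← hY]
    exact card_le_card (union_subset inter_subset_right inter_subset_right)
  have hM := perm_count (A \ Y0) (B \ Y0) (hAB.mono sdiff_subset sdiff_subset) rfl rfl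
  have key : ∀ J ∈ Js Y0, ∀ σ : Equiv.Perm (Fin N), Arr Y0 J σ A B ↔
      ((A ∩ Y0 ⊆ J ∧ Disjoint (B ∩ Y0) J) ∧
        ∀ a ∈ A \ Y0, ∀ b ∈ B \ Y0, σ a < σ b) := by
    intro J hJ σ
    have hJY : J ⊆ Y0 := by
      unfold Js at hJ
      exact mem_powerset.1 (mem_filter.1 hJ).1
    have hd : Disjoint B J ↔ Disjoint (B ∩ Y0) J := by
      constructor
      · intro h; exact h.mono_left inter_subset_left
      · intro h
        rw [disjoint_left] at h ⊢
        intro x hx hxJ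
        exact h (mem_inter.2 ⟨hx, hJY hxJ⟩) hxJ
    unfold Arr
    rw [hd, and_assoc]
  set M := (univ.filter (fun σ : Equiv.Perm (Fin N) =>
    ∀ a ∈ A \ Y0, ∀ b ∈ B \ Y0, σ a < σ b)).card with hMdef
  have hW : W k Y0 (fun _ => 1) (fun J σ => Arr Y0 J σ A B) =
      (∑ j ∈ Icc (A ∩ Y0).card (k - (B ∩ Y0).card), (k.choose j) *
        (k - (A ∩ Y0).card - (B ∩ Y0).card).choose (j - (A ∩ Y0).card)) * M := by
    rw [← cut_sum Y0 (A ∩ Y0) (B ∩ Y0) hY inter_subset_right inter_subset_right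
      (hAB.mono inter_subset_left inter_subset_left)
      hA0 hB0 (fun j => k.choose j), sum_mul, sum_filter]
    unfold W
    refine sum_congr rfl fun J hJ => ?_
    by_cases hc : A ∩ Y0 ⊆ J ∧ Disjoint (B ∩ Y0) J
    · rw [if_pos hc, hMdef, card_filter, mul_sum]
      refine sum_congr rfl fun σ _ => ?_
      have h1 := key J hJ σ
      by_cases h2 : ∀ a ∈ A \ Y0, ∀ b ∈ B \ Y0, σ a < σ b
      · rw [if_pos (h1.2 ⟨hc, h2⟩), if_pos h2, mul_one]
      · rw [if_neg (fun h3 => h2 (h1.1 h3).2), if_neg h2, mul_zero]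
    · rw [if_neg hc]
      refine sum_eq_zero fun σ _ => ?_
      rw [if_neg (fun h3 => hc ((key J hJ σ).1 h3).1)]
  have hch : ((A \ Y0).card + (B \ Y0).card).choose (A \ Y0).card =
      (2 * k - (A ∩ Y0).card - (B ∩ Y0).card).choose (k - (A ∩ Y0).card) := by
    congr 1 <;> omega
  rw [hch] at hM
  rw [hW, vand e3, ← hM, mul_comm]

end Pool.Agent.K4H58.XK
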